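import Pool.Agent.Helper38.BK.Main
import Mathlib.Combinatorics.SimpleGraph.DegreeSum
import Mathlib.Combinatorics.SimpleGraph.Bipartite
import Mathlib.Analysis.SpecialFunctions.Pow.Real

/-!
# Judicious bipartitions: the term `m^(1/4)`

For a finite graph `G` let `g(G)` be the minimum over all bipartitions of the larger number of edges
inside a class, and `g(m)` the maximum of `g(G)` over all graphs with `m` edges.  We prove that
`g(m) < m/4 + √(m/32) - m^(1/4)/500` for every `m = C(2n, 2)`, `n ≥ 10000`, in particular for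
infinitely many `m` (this is the affirmative answer to Q1).

The function `g` of the statement is the function `g(m)` of the problem: for every `m ≥ 1` the value
`g(m)` is the greatest element of `gValues m`, the set of the numbers `g(G)` of the finite graphs `G`
with `m` edges.

Proof.  If the assertion is false for `G`, then one class `V₁` of a maximum cut spans more than
`n²/2 - t` edges (`t = ⌊√n/100⌋`), a minimal subset `X` of `V₁` with this property has between `n + 1`
and `n + 4t` vertices and is almost complete, and the complement spans fewer than `n(n-1)/2` edges; so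
`X` and its complement can be coloured with few colours, which gives a cut of `G` which is larger than
the maximum cut.
-/

set_option autoImplicit false
set_option linter.unusedSectionVars false

namespace Pool.Agent.Results.MP_0efbd6_co.BipartitionGap

/-- `e(U)`: the number of edges of `G` with both endpoints in `U`. -/
noncomputable def edgesIn {V : Type} (G : SimpleGraph V) (U : Set V) : ℕ :=
  {e ∈ G.edgeSet | ∀ v ∈ e, v ∈ U}.ncard

/-- `g(G)`: the minimum of `max (e(U)) (e(V \ U))` over all subsets `U` of the vertex set `V`. -/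
noncomputable def gGraph {V : Type} (G : SimpleGraph V) : ℕ :=
  ⨅ U : Set V, max (edgesIn G U) (edgesIn G Uᶜ)

/-- The set of the numbers `g(G)`, for all finite graphs `G` with `m` edges. -/
def gValues (m : ℕ) : Set ℕ :=
  {k | ∃ (V : Type) (_ : Finite V) (G : SimpleGraph V), G.edgeSet.ncard = m ∧ gGraph G = k}

/-! ### Bridging lemmas -/

section bridge

open Pool.Agent.Helper38.Judicious Classical

variable {V : Type} [Fintype V]

/-- the 0/1 adjacency matrix -/
noncomputable def adj (G : SimpleGraph V) (u v : V) : ℤ := if G.Adj u v then 1 else 0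

/-- the graph of the edges inside `S` -/
def inside (G : SimpleGraph V) (S : Finset V) : SimpleGraph V where
  Adj u v := G.Adj u v ∧ u ∈ S ∧ v ∈ S
  symm := ⟨fun _ _ h => ⟨h.1.symm, h.2.2, h.2.1⟩⟩
  loopless := ⟨fun _ h => G.loopless.irrefl _ h.1⟩

lemma inside_edgeSet (G : SimpleGraph V) (S : Finset V) :
    (inside G S).edgeSet = {e ∈ G.edgeSet | ∀ v ∈ e, v ∈ (S : Set V)} := by
  ext e
  induction e using Sym2.inductionOn with
  | hf x y => simp [inside]

lemma E_adj (G : SimpleGraph V) (S : Finset V) :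
    E (adj G) S S = 2 * (edgesIn G (S : Set V) : ℤ) := by
  have h1 : E (adj G) S S = ∑ u, ((inside G S).degree u : ℤ) := by
    unfold E
    rw [← Finset.sum_subset (Finset.subset_univ S)]
    · refine Finset.sum_congr rfl fun u hu => ?_
      rw [← SimpleGraph.card_neighborFinset_eq_degree, SimpleGraph.neighborFinset_eq_filter,
        Finset.card_filter]
      push_cast
      rw [← Finset.sum_subset (Finset.subset_univ S)]
      · refine Finset.sum_congr rfl fun v hv => ?_
        simp [adj, inside, hu, hv]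
      · intro v _ hv
        simp [inside, hv]
    · intro u _ hu
      rw [← SimpleGraph.card_neighborFinset_eq_degree, SimpleGraph.neighborFinset_eq_filter]
      simp [inside, hu]
  have h2 : (edgesIn G (S : Set V)) = (inside G S).edgeFinset.card := by
    unfold edgesIn
    rw [← inside_edgeSet, ← SimpleGraph.coe_edgeFinset, Set.ncard_coe_finset]
  rw [h1, h2]
  have h3 := (inside G S).sum_degrees_eq_twice_card_edges
  exact_mod_cast h3

lemma edgesIn_univ {W : Type} (G : SimpleGraph W) : edgesIn G Set.univ = G.edgeSet.ncard := by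
  unfold edgesIn
  congr 1
  ext e
  simp

end bridge

lemma gGraph_le {W : Type} (G : SimpleGraph W) (U : Set W) :
    gGraph G ≤ max (edgesIn G U) (edgesIn G Uᶜ) :=
  ciInf_le (OrderBot.bddBelow _) U

lemma edgesIn_le {W : Type} [Finite W] (G : SimpleGraph W) (U : Set W) :
    edgesIn G U ≤ G.edgeSet.ncard :=
  Set.ncard_le_ncard (fun _ h => h.1) (Set.toFinite _)

lemma gValues_bdd (m : ℕ) : BddAbove (gValues m) := by
  refine ⟨m, ?_⟩
  rintro k ⟨W, hW, G, hG, rfl⟩
  refine (gGraph_le G Set.univ).trans ?_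
  rw [← hG]
  exact max_le (edgesIn_le G _) (edgesIn_le G _)

lemma gValues_nonempty (m : ℕ) : (gValues m).Nonempty := by
  refine ⟨_, Fin m ⊕ Unit, inferInstance, completeBipartiteGraph (Fin m) Unit, ?_, rfl⟩
  rw [Set.ncard, SimpleGraph.encard_edgeSet_completeBipartiteGraph]
  simp

/-- real estimate -/
lemma real_estimate (t : ℝ) (ht : 1 ≤ t) (n m : ℝ) (hn1 : 1 ≤ n) (hn : n ≤ 40000 * t ^ 2)
    (hm : m = 2 * n ^ 2 - n) :
    n ^ 2 / 2 - t < m / 4 + Real.sqrt (m / 32) - (1 / 500 : ℝ) * m ^ ((1 : ℝ) / 4) := by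
  have hmpos : 0 ≤ m := by rw [hm]; nlinarith
  have h1 : n / 4 - 1 / 8 ≤ Real.sqrt (m / 32) := by
    apply Real.le_sqrt_of_sq_le
    rw [hm]; nlinarith
  have h2 : m ^ ((1 : ℝ) / 4) ≤ 240 * t := by
    have h240 : (0 : ℝ) ≤ 240 * t := by linarith
    have hle : m ≤ (240 * t) ^ 4 := by
      have hsq : n ^ 2 ≤ (40000 * t ^ 2) ^ 2 := pow_le_pow_left₀ (by linarith) hn 2
      rw [hm]
      nlinarith [sq_nonneg t, sq_nonneg (t ^ 2)]
    calc m ^ ((1 : ℝ) / 4) ≤ ((240 * t) ^ 4) ^ ((1 : ℝ) / 4) :=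
          Real.rpow_le_rpow hmpos hle (by norm_num)
      _ = 240 * t := by
          rw [← Real.rpow_natCast, ← Real.rpow_mul h240]
          norm_num
  have h3 : n ^ 2 / 2 = m / 4 + n / 4 := by rw [hm]; ring
  rw [h3]
  linarith

open Pool.Agent.Helper38.Judicious in
/-- the bound for one graph -/
lemma graph_bound (n : ℕ) (hn : 10000 ≤ n) {V : Type} [Finite V] (G : SimpleGraph V)
    (hG : G.edgeSet.ncard = (2 * n).choose 2) :
    (gGraph G : ℝ) < (((2 * n).choose 2 : ℕ) : ℝ) / 4
      + Real.sqrt ((((2 * n).choose 2 : ℕ) : ℝ) / 32)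
      - (1 / 500 : ℝ) * (((2 * n).choose 2 : ℕ) : ℝ) ^ ((1 : ℝ) / 4) := by
  classical
  have := Fintype.ofFinite V
  -- t
  obtain ⟨t, ht1, ht2, ht3⟩ : ∃ t : ℕ, 1 ≤ t ∧ 10000 * t ^ 2 ≤ n ∧ n ≤ 40000 * t ^ 2 := by
    refine ⟨Nat.sqrt (n / 10000), ?_, ?_, ?_⟩
    · rw [Nat.one_le_iff_ne_zero, Ne, Nat.sqrt_eq_zero]
      omega
    · have := Nat.sqrt_le' (n / 10000)
      omega
    · have h1 := Nat.lt_succ_sqrt' (n / 10000)
      have h2 : 1 ≤ Nat.sqrt (n / 10000) := by
        rw [Nat.one_le_iff_ne_zero, Ne, Nat.sqrt_eq_zero]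
        omega
      have h3 : (Nat.succ (Nat.sqrt (n / 10000))) ^ 2 ≤ 4 * (Nat.sqrt (n / 10000)) ^ 2 := by
        rw [Nat.succ_eq_add_one]
        nlinarith
      omega
  have hm1 : (((2 * n).choose 2 : ℕ) : ℤ) = 2 * (n : ℤ) ^ 2 - n := by
    rw [Nat.choose_two_right]
    have h2 : 2 * n * (2 * n - 1) / 2 = n * (2 * n - 1) := by
      rw [mul_assoc, Nat.mul_div_cancel_left _ (by norm_num)]
    rw [h2]
    have h3 : 1 ≤ 2 * n := by omega
    push_cast [Nat.cast_sub h3]
    ring
  have hm2 : (((2 * n).choose 2 : ℕ) : ℝ) = 2 * (n : ℝ) ^ 2 - n := by exact_mod_cast hm1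
  have hE : E (adj G) Finset.univ Finset.univ = 4 * (n : ℤ) ^ 2 - 2 * n := by
    rw [E_adj, Finset.coe_univ, edgesIn_univ, hG, hm1]
    ring
  obtain ⟨S, hS1, hS2⟩ := Pool.Agent.Helper38.BK.main_int (adj G)
      (fun u v => by simp [adj, G.adj_comm])
      (fun v => by simp [adj])
      (fun u v => by
        unfold adj
        by_cases h : G.Adj u v <;> simp [h]) (t : ℤ) (n : ℤ) (by exact_mod_cast ht1)
      (by exact_mod_cast ht2) hE
  rw [E_adj] at hS1 hS2
  rw [Finset.coe_compl] at hS2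
  have hle : (gGraph G : ℝ) ≤ (n : ℝ) ^ 2 / 2 - t := by
    have h0 : (gGraph G : ℝ) ≤ ((max (edgesIn G (S : Set V)) (edgesIn G (S : Set V)ᶜ) : ℕ) : ℝ) := by
      exact_mod_cast gGraph_le G (S : Set V)
    refine h0.trans ?_
    rw [Nat.cast_max]
    have r1 : (2 : ℝ) * (edgesIn G (S : Set V) : ℝ) ≤ (n : ℝ) ^ 2 - 2 * t := by exact_mod_cast hS1
    have r2 : (2 : ℝ) * (edgesIn G (S : Set V)ᶜ : ℝ) ≤ (n : ℝ) ^ 2 - 2 * t := by
      exact_mod_cast hS2
    apply max_le <;> linarith
  refine lt_of_le_of_lt hle ?_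
  exact real_estimate (t : ℝ) (by exact_mod_cast ht1) (n : ℝ) _
    (by exact_mod_cast (show 1 ≤ n by omega)) (by exact_mod_cast ht3) hm2

/-- Let `g(m)` be the maximum of `g(G)` over all finite graphs `G` with `m` edges.  Then
`g(m) < m/4 + √(m/32) - m^(1/4)/500` for all `m = C(2n, 2)`, `n ≥ 10000`. -/
theorem result :
    ∃ g : ℕ → ℕ, (∀ m : ℕ, 1 ≤ m → IsGreatest (gValues m) (g m)) ∧
      ∀ n m : ℕ, 10000 ≤ n → m = (2 * n).choose 2 →
        (g m : ℝ) < (m : ℝ) / 4 + Real.sqrt ((m : ℝ) / 32)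
          - (1 / 500 : ℝ) * (m : ℝ) ^ ((1 : ℝ) / 4) := by
  refine ⟨fun m => sSup (gValues m), fun m _ => ⟨Nat.sSup_mem (gValues_nonempty m) (gValues_bdd m),
    fun k hk => le_csSup (gValues_bdd m) hk⟩, ?_⟩
  rintro n m hn rfl
  obtain ⟨V, hV, G, hG, hk⟩ := Nat.sSup_mem (gValues_nonempty ((2 * n).choose 2))
    (gValues_bdd ((2 * n).choose 2))
  show ((sSup (gValues ((2 * n).choose 2)) : ℕ) : ℝ) < _
  rw [← hk]
  exact graph_bound n hn G hG

end Pool.Agent.Results.MP_0efbd6_co.BipartitionGap
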